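import Pool.Agent.helper22.DL.SpecE2

/-! # Project dl, module EAD: a priori bounds along the homotopy -/

namespace Pool.Agent.DL

open Matrix Complex MeasureTheory Set Filter Topology
open scoped ComplexOrder Manifold ContDiff ComplexConjugate

theorem EAD_bdd (f : Bool → ℂ → ℂ) (hf : ∀ j, Differentiable ℂ (f j)) :
    ∃ M : ℝ, 0 ≤ M ∧ ∀ j, ∀ z ∈ Dk, ‖f j z‖ ≤ M := by
  have h1 : ∀ j, ∃ M : ℝ, ∀ z ∈ Dk, ‖f j z‖ ≤ M := by
    intro j
    exact (isCompact_closedBall (0 : ℂ) 1).exists_bound_of_continuousOn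
      (hf j).continuous.continuousOn
  choose M hM using h1
  refine ⟨|M false| + |M true|, by positivity, ?_⟩
  intro j z hz
  have h2 := hM j z hz
  have h3 := le_abs_self (M j)
  have h4 := abs_nonneg (M false)
  have h5 := abs_nonneg (M true)
  cases j <;> linarith

theorem EAD_log {z : ℂ} (hz : z ∈ Dk) :
    0 ≤ 2 * Real.log (1 + ‖z‖ ^ 2) ∧ 2 * Real.log (1 + ‖z‖ ^ 2) ≤ 2 := by
  have h1 : ‖z‖ ≤ 1 := by simpa using hz
  have h2 : 0 ≤ ‖z‖ ^ 2 := by positivity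
  have h3 : ‖z‖ ^ 2 ≤ 1 := pow_le_one₀ (norm_nonneg _) h1
  have h4 := Real.log_nonneg (x := 1 + ‖z‖ ^ 2) (by linarith)
  have h5 := Real.log_le_sub_one_of_pos (x := 1 + ‖z‖ ^ 2) (by linarith)
  constructor <;> linarith

theorem EAD (hESC : ESC_stmt) (hEIS : EIS_stmt) (hEPE : EPE_stmt) (hEPD : EPD_stmt)
    (hEAA : EAA_stmt) (hEAB : EAB_stmt) (hEAC : EAC_stmt) : EAD_stmt := by
  intro D hD hs
  obtain ⟨Mp, hMp0, hMp⟩ := EAD_bdd D.p hD.hp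
  obtain ⟨Mr, hMr0, hMr⟩ := EAD_bdd D.r hD.hr
  set Λ : ℝ := 3 * (1 + 2 * Mp + Mr) ^ 2 with hΛ
  set C1 : ℝ := 4 * max (2 * Λ) (32 / D.κ) with hC1
  obtain ⟨C2, hC2⟩ := hEAB D.κ hD.hκ
  set M1 : ℝ := |C1| + |C2| + 3 + Mp + Mr with hM1
  obtain ⟨C3, hC3⟩ := hEAC D.κ M1 hD.hκ
  refine ⟨M1 + |C3|, ?_⟩
  intro τ hτ u b g c P hsol
  have hV := (hESC D hD τ).1
  have hGS := hEIS (D.sc τ) u b g c P hV hsol
  have hPS := (hEPD (D.sc τ) _ _ _ _ _ _ hV hGS (hEPE (D.sc τ) _ _ _ hV hGS)).1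
  have hτ0 : ‖(τ : ℂ)‖ ≤ 1 := by
    rw [Complex.norm_real, Real.norm_eq_abs, abs_le]
    constructor <;> linarith [hτ.1, hτ.2]
  have hp : ∀ j, ∀ z ∈ Dk, ‖(D.sc τ).p j z‖ ≤ Mp := by
    intro j z hz
    show ‖(τ : ℂ) ^ 2 * D.p j z‖ ≤ Mp
    rw [norm_mul, norm_pow]
    have h1 : ‖(τ : ℂ)‖ ^ 2 ≤ 1 := pow_le_one₀ (norm_nonneg _) hτ0
    have h2 := hMp j z hz
    have h3 := norm_nonneg (D.p j z)
    nlinarith
  have hr : ∀ j, ∀ z ∈ Dk, ‖(D.sc τ).r j z‖ ≤ Mr := by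
    intro j z hz
    show ‖(τ : ℂ) ^ 3 * D.r j z‖ ≤ Mr
    rw [norm_mul, norm_pow]
    have h1 : ‖(τ : ℂ)‖ ^ 3 ≤ 1 := pow_le_one₀ (norm_nonneg _) hτ0
    have h2 := hMr j z hz
    have h3 := norm_nonneg (D.r j z)
    nlinarith
  have hs' : ∀ j z, (D.sc τ).s j z = 0 := fun j z => hs j z
  have hΛ' : ∀ j, ∀ z ∈ Dk, 3 * (1 + 2 * ‖(D.sc τ).p j z‖ + ‖(D.sc τ).r j z‖) ^ 2 ≤ Λ := by
    intro j z hz
    have h1 := hp j z hz
    have h2 := hr j z hz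
    have h3 := norm_nonneg ((D.sc τ).p j z)
    have h4 := norm_nonneg ((D.sc τ).r j z)
    have h5 : (1 + 2 * ‖(D.sc τ).p j z‖ + ‖(D.sc τ).r j z‖) ^ 2 ≤ (1 + 2 * Mp + Mr) ^ 2 :=
      pow_le_pow_left₀ (by positivity) (by linarith) 2
    linarith
  have hAA := hEAA (D.sc τ) _ _ Λ hV hs' hPS hΛ'
  have hAB := hC2 (D.sc τ) _ _ hV rfl hs' hPS
  have hκ : (D.sc τ).κ = D.κ := rfl
  have hub : ∀ j, ∀ z ∈ Dk, |u j z| ≤ M1 ∧ ‖b j z‖ ≤ M1 := by
    intro j z hz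
    have h1 := hAA j z hz
    have h2 := hAB j z hz
    rw [hκ, ← hC1] at h1
    rw [← hsol.eb j z hz] at h1
    have h2' : Ls (fun z => TU (Fd (D.sc τ) u b g) j z + c) z ≤ C2 := h2
    have h3 : Ls (fun z => TU (Fd (D.sc τ) u b g) j z + c) z = u j z - 2 * Real.log (1 + ‖z‖ ^ 2) := by
      show TU (Fd (D.sc τ) u b g) j z + c - 2 * Real.log (1 + ‖z‖ ^ 2) = _
      rw [← hsol.eu j z hz]
    have h4 : fA ((D.sc τ).p j z) ((D.sc τ).r j z) (u j z - 2 * Real.log (1 + ‖z‖ ^ 2)) (b j z) ≤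
        C1 := by
      rw [← h3]
      exact h1
    rw [h3] at h2'
    set L := u j z - 2 * Real.log (1 + ‖z‖ ^ 2) with hL
    unfold fA at h4
    have h5 : 0 < Real.exp (-L) := Real.exp_pos _
    have h6 : 0 ≤ 2 * Real.exp L * ‖xx ((D.sc τ).p j z) (b j z)‖ ^ 2 := by positivity
    have h7 : 0 ≤ Real.exp (2 * L) * ‖yy ((D.sc τ).p j z) ((D.sc τ).r j z) (b j z)‖ ^ 2 := by
      positivity
    have h8 : 0 ≤ 6 * ‖b j z‖ ^ 2 := by positivity
    have h9 := Real.add_one_le_exp (-L)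
    have h10 := EAD_log hz
    have h11 := le_abs_self C1
    have h12 := le_abs_self C2
    have h13 := abs_nonneg C1
    have h14 := abs_nonneg C2
    constructor
    · rw [abs_le]
      constructor <;> linarith
    · have h15 := norm_nonneg (b j z)
      have h16 : ‖b j z‖ ^ 2 ≤ |C1| := by linarith
      have h17 : ‖b j z‖ ≤ |C1| + 1 := by nlinarith
      linarith
  obtain ⟨h1, h2⟩ := hC3 (D.sc τ) u b g c P hV rfl (by
    intro j z hz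
    have h3 := hp j z hz
    have h4 := hr j z hz
    have h5 := abs_nonneg C1
    have h6 := abs_nonneg C2
    refine ⟨by linarith, by linarith, ?_⟩
    rw [hs' j z, abs_zero]
    linarith) hsol hub
  have h3 := le_abs_self C3
  have h4 : 0 ≤ M1 := by
    have h5 := abs_nonneg C1
    have h6 := abs_nonneg C2
    linarith
  refine ⟨fun j z hz => ⟨?_, ?_⟩, by linarith, fun k => by linarith [h2 k]⟩
  · have := (hub j z hz).1
    linarith [abs_nonneg C3]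
  · have := (hub j z hz).2
    linarith [abs_nonneg C3]

end Pool.Agent.DL
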