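import Pool.Agent.helper22.DL.SpecE2

/-! # Project dl, module EIJ: injectivity of the linearised equation, rank three -/

namespace Pool.Agent.DL

open Matrix Complex MeasureTheory Set Filter Topology
open scoped ComplexOrder Manifold ContDiff ComplexConjugate

theorem EIJ_exp (x y : ℝ) (hx : 0 < x) : Real.exp (y - 4 * Real.log x) * x ^ 4 = Real.exp y := by
  have h1 : 4 * Real.log x = Real.log (x ^ 4) := by
    rw [Real.log_pow]
    norm_num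
  rw [h1, Real.exp_sub, Real.exp_log (by positivity)]
  field_simp

theorem EIJ_QQ (p r : ℂ) (L : ℝ) (b : ℂ) : QQ' p r L b 0 0 = 0 := by
  simp [QQ']

theorem EIJ_RR (p r : ℂ) (L : ℝ) (b : ℂ) : RR' p r L b 0 0 = 0 := by
  simp [RR']

theorem EIJ_TG (φ : Bool → ℂ → ℂ) (h : ∀ j, ∀ z ∈ Dk, φ j z = 0) (j : Bool) (z : ℂ) :
    TG φ j z = 0 := by
  unfold TG
  rw [setIntegral_eq_zero_of_forall_eq_zero (fun ξ hξ => by rw [h j ξ hξ, zero_div]),
    setIntegral_eq_zero_of_forall_eq_zero (fun ξ hξ => by rw [h (!j) ξ hξ, mul_zero, zero_div])]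
  simp

theorem EIJ_TB (β : Bool → ℂ → ℂ) (h : ∀ j, ∀ᵐ z : ℂ, z ∈ Dk → β j z = 0) (j : Bool) (z : ℂ) :
    TB β j z = 0 := by
  unfold TB
  rw [setIntegral_eq_zero_of_ae_eq_zero (by
      filter_upwards [h j] with ξ hξ h1
      rw [hξ h1, zero_div]),
    setIntegral_eq_zero_of_ae_eq_zero (by
      filter_upwards [h (!j)] with ξ hξ h1
      rw [hξ h1, zero_div])]
  simp

theorem EIJ_TU (F : Bool → ℂ → ℝ) (h : ∀ j, ∀ᵐ z : ℂ, z ∈ Dk → F j z = 0) (j : Bool) (z : ℂ) :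
    TU F j z = 0 := by
  unfold TU
  rw [setIntegral_eq_zero_of_ae_eq_zero (by
      filter_upwards [h j] with ξ hξ h1
      rw [hξ h1, mul_zero]),
    setIntegral_eq_zero_of_ae_eq_zero (by
      filter_upwards [h (!j)] with ξ hξ h1
      rw [hξ h1, mul_zero])]
  simp

/-- the conclusion from `u' = 0`, `b' = 0` on the disc -/
theorem EIJ_end (hvol : volume {z : ℂ | z ^ 8 = 1} = 0) (D : Dat) (u : Bool → ℂ → ℝ)
    (b g : Bool → ℂ → ℂ) (u' : Bool → ℂ → ℝ) (b' g' : Bool → ℂ → ℂ) (c' : ℝ) (P' : Fin 3 → ℂ)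
    (hlin : Lin3 D u b g u' b' g' c' P') (h0 : ∀ j, ∀ z ∈ Dk, u' j z = 0 ∧ b' j z = 0) :
    c' = 0 ∧ ∀ k, P' k = 0 := by
  have hae : ∀ᵐ z : ℂ, z ^ 8 ≠ 1 := by
    rw [ae_iff]
    simpa using hvol
  have hphi : ∀ j, ∀ z ∈ Dk, phi' D u b u' b' j z = 0 := by
    intro j z hz
    unfold phi'
    rw [(h0 j z hz).1, (h0 j z hz).2, EIJ_QQ, map_zero, mul_zero]
  have hg' : ∀ j, ∀ z ∈ Dk, z ^ 8 ≠ 1 → g' j z = 0 := by
    intro j z hz hz8
    rw [hlin.eg j z hz hz8]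
    exact EIJ_TG _ hphi j z
  have hbet : ∀ j, ∀ᵐ z : ℂ, z ∈ Dk → bet' u g u' g' j z = 0 := by
    intro j
    filter_upwards [hae] with z hz8 hz
    unfold bet'
    rw [hg' j z hz hz8, (h0 j z hz).1]
    simp
  have hFd : ∀ j, ∀ᵐ z : ℂ, z ∈ Dk → Fd' D u b g u' b' g' j z = 0 := by
    intro j
    filter_upwards [hae] with z hz8 hz
    unfold Fd'
    rw [hg' j z hz hz8, (h0 j z hz).1, (h0 j z hz).2, EIJ_RR]
    simp
  have hz0 : (0 : ℂ) ∈ Dk := by simp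
  have hz1 : (1 : ℂ) ∈ Dk := by simp
  have hz2 : (-1 : ℂ) ∈ Dk := by simp
  constructor
  · have h1 := hlin.eu false 0 hz0
    rw [EIJ_TU _ hFd, (h0 false 0 hz0).1, zero_add] at h1
    exact h1.symm
  · have hP : ∀ z ∈ Dk, Pq P' false z = 0 := by
      intro z hz
      have h1 := hlin.eb false z hz
      rw [EIJ_TB _ hbet, (h0 false z hz).2, zero_add] at h1
      exact h1.symm
    have e0 := hP 0 hz0
    have e1 := hP 1 hz1
    have e2 := hP (-1) hz2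
    simp only [Pq, cond_false] at e0 e1 e2
    have p0 : P' 0 = 0 := by simpa using e0
    have p2 : P' 2 = 0 := by linear_combination (e1 + e2) / 2 - p0
    have p1 : P' 1 = 0 := by linear_combination (e1 - e2) / 2
    intro k
    fin_cases k
    · exact p0
    · exact p1
    · exact p2

theorem EIJ (hEIS : EIS_stmt) (hEIL : EIL_stmt) (hEPD : EPD_stmt) (hEMX : EMX_stmt)
    (hEPT : EPT_stmt) (hMX : MX_stmt) (hELN : ELN_stmt) (hEKC : EKC_stmt) : EIJ_stmt := by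
  intro D u b g c P u' b' g' c' P' hD hs hsol hlin
  have hGS := hEIS D u b g c P hD hsol
  have hGSL := hEIL D u b g c P u' b' g' c' P' hD hsol hlin
  obtain ⟨hPS, hLPS⟩ := hEPD D _ _ _ _ _ _ hD hGS hGSL
  set U : Bool → ℂ → ℝ := fun j z => TU (Fd D u b g) j z + c with hU
  set B : Bool → ℂ → ℂ := fun j z => TB (bet u g) j z + Pq P j z with hB
  set U' : Bool → ℂ → ℝ := fun j z => TU (Fd' D u b g u' b' g') j z + c' with hU'
  set B' : Bool → ℂ → ℂ := fun j z => TB (bet' u g u' g') j z + Pq P' j z with hB'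
  set F : Bool → ℂ → ℝ := fun j z => 2 * U' j z ^ 2 + 4 * Real.exp (Ls (U j) z) * ‖B' j z‖ ^ 2
    with hF
  have hFnn : ∀ j z, 0 ≤ F j z := by
    intro j z
    rw [hF]
    positivity
  have hFc : ∀ j, Continuous (F j) := by
    intro j
    have h1 := hLPS.cL j
    have h2 := hLPS.cb j
    have h3 := hPS.cL j
    exact (continuous_const.mul (h1.pow 2)).add
      ((continuous_const.mul (Real.continuous_exp.comp h3)).mul (h2.norm.pow 2))
  have hFi : ∀ j z, z ≠ 0 → F j z = F (!j) z⁻¹ := by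
    intro j z hz
    have h1 := hLPS.gL j z hz
    have h2 := hLPS.gb j z hz
    have h3 : Ls (U j) z = Ls (U (!j)) z⁻¹ - 4 * Real.log ‖z‖ := hPS.gL j z hz
    show 2 * U' j z ^ 2 + 4 * Real.exp (Ls (U j) z) * ‖B' j z‖ ^ 2 =
      2 * U' (!j) z⁻¹ ^ 2 + 4 * Real.exp (Ls (U (!j)) z⁻¹) * ‖B' (!j) z⁻¹‖ ^ 2
    rw [h1, h2, norm_mul, norm_pow, h3, ← EIJ_exp ‖z‖ (Ls (U (!j)) z⁻¹) (norm_pos_iff.2 hz)]
    ring
  obtain ⟨j, z₀, hz₀, hmax, hmax'⟩ := hEMX F hFc hFi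
  obtain ⟨cc, hcc, hcoord⟩ := hEPT D.κ hD.hκ
  obtain ⟨ψ, om, ρ, hρ, hψ0, hψ, hom, -, -, -, hSY, hLSY⟩ := hcoord z₀ hz₀
  have h0ball : (0 : ℂ) ∈ Metric.ball (0 : ℂ) ρ := Metric.mem_ball_self hρ
  have hSY' := hSY D (fun j => Ls (U j)) B rfl hPS j
  have hLSY' := hLSY D (fun j => Ls (U j)) B U' B' rfl hPS hLPS j
  have hs' : (fun y => D.s j (ψ y)) = fun _ => 0 := by
    funext y
    exact hs j _
  rw [hs'] at hSY'
  obtain ⟨hcd, hle⟩ := hELN (Metric.ball 0 ρ) om _ _ _ _ _ _ Metric.isOpen_ball hSY' hLSY' 0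
    h0ball (hom 0 h0ball).le
  have hlm : IsLocalMax (fun w => 2 * U' j (ψ w) ^ 2 + 4 * Real.exp (Ls (U j) (ψ w)) *
      ‖B' j (ψ w)‖ ^ 2) 0 := by
    refine Eventually.of_forall fun w => ?_
    show F j (ψ w) ≤ F j (ψ 0)
    rw [hψ0]
    exact hmax _
  have hlap := hMX _ 0 hcd hlm
  have hom0 := hom 0 h0ball
  have hexp : 0 < Real.exp (-Ls (U j) (ψ 0)) := Real.exp_pos _
  have hsum : 4 * ‖B' j (ψ 0)‖ ^ 2 + Real.exp (-Ls (U j) (ψ 0)) *
      ‖(U' j (ψ 0) : ℂ) - 3 * (Real.exp (Ls (U j) (ψ 0)) : ℂ) * B j (ψ 0) *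
        conj (B' j (ψ 0))‖ ^ 2 ≤ 0 := by
    by_contra hc
    have hc' := not_le.1 hc
    have h1 := mul_pos (mul_pos (two_pos (α := ℝ)) hom0) hc'
    exact absurd (lt_of_lt_of_le h1 (hle.trans hlap)) (lt_irrefl _)
  have hb0 : B' j (ψ 0) = 0 := by
    have h1 : 0 ≤ Real.exp (-Ls (U j) (ψ 0)) *
      ‖(U' j (ψ 0) : ℂ) - 3 * (Real.exp (Ls (U j) (ψ 0)) : ℂ) * B j (ψ 0) *
        conj (B' j (ψ 0))‖ ^ 2 := by positivity
    have h2 : ‖B' j (ψ 0)‖ ^ 2 ≤ 0 := by linarith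
    have h3 : ‖B' j (ψ 0)‖ ^ 2 = 0 := le_antisymm h2 (by positivity)
    have h4 : ‖B' j (ψ 0)‖ = 0 := by
      exact pow_eq_zero_iff (two_ne_zero) |>.1 h3
    exact norm_eq_zero.1 h4
  have hu0 : U' j (ψ 0) = 0 := by
    rw [hb0] at hsum
    simp only [norm_zero, map_zero, mul_zero, sub_zero] at hsum
    have h2 : ‖(U' j (ψ 0) : ℂ)‖ ^ 2 = 0 := by
      have h3 : 0 ≤ ‖(U' j (ψ 0) : ℂ)‖ ^ 2 := by positivity
      have h4 : Real.exp (-Ls (U j) (ψ 0)) * ‖(U' j (ψ 0) : ℂ)‖ ^ 2 ≤ 0 := by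
        have h5 : (4 : ℝ) * 0 ^ 2 = 0 := by norm_num
        linarith
      nlinarith
    have h4 : ‖(U' j (ψ 0) : ℂ)‖ = 0 := pow_eq_zero_iff (two_ne_zero) |>.1 h2
    exact_mod_cast norm_eq_zero.1 h4
  have hF0 : F j z₀ = 0 := by
    rw [← hψ0]
    show 2 * U' j (ψ 0) ^ 2 + 4 * Real.exp (Ls (U j) (ψ 0)) * ‖B' j (ψ 0)‖ ^ 2 = 0
    rw [hb0, hu0]
    simp
  have hFz : ∀ i z, F i z = 0 := by
    intro i z
    apply le_antisymm _ (hFnn i z)
    rw [← hF0]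
    rcases Bool.eq_or_eq_not i j with h | h
    · rw [h]
      exact hmax z
    · rw [h]
      exact hmax' z
  have hzero : ∀ i z, U' i z = 0 ∧ B' i z = 0 := by
    intro i z
    have h1 : 2 * U' i z ^ 2 + 4 * Real.exp (Ls (U i) z) * ‖B' i z‖ ^ 2 = 0 := hFz i z
    have h2 : 0 ≤ U' i z ^ 2 := sq_nonneg _
    have h3 : 0 < Real.exp (Ls (U i) z) := Real.exp_pos _
    have h4 : 0 ≤ ‖B' i z‖ ^ 2 := sq_nonneg _
    have h5 : 0 ≤ 4 * Real.exp (Ls (U i) z) * ‖B' i z‖ ^ 2 := by positivity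
    have h6 : U' i z ^ 2 = 0 := by linarith
    have h7 : 4 * Real.exp (Ls (U i) z) * ‖B' i z‖ ^ 2 = 0 := by linarith
    refine ⟨pow_eq_zero_iff two_ne_zero |>.1 h6, ?_⟩
    rcases mul_eq_zero.1 h7 with h8 | h8
    · exact absurd h8 (by positivity)
    · exact norm_eq_zero.1 (pow_eq_zero_iff two_ne_zero |>.1 h8)
  have hfinal : ∀ i, ∀ z ∈ Dk, u' i z = 0 ∧ b' i z = 0 := by
    intro i z hz
    refine ⟨?_, ?_⟩
    · rw [hlin.eu i z hz]
      exact (hzero i z).1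
    · rw [hlin.eb i z hz]
      exact (hzero i z).2
  exact ⟨hfinal, EIJ_end hEKC.2.2.1 D u b g u' b' g' c' P' hlin hfinal⟩

end Pool.Agent.DL
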