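import Pool.Agent.helper22.DL.SpecE2

/-! # Project dl, module ELQ: `lap log (1 + |ψ|²)` for holomorphic `ψ` -/

namespace Pool.Agent.DL

open Matrix Complex MeasureTheory Set Filter Topology
open scoped ComplexOrder Manifold ContDiff ComplexConjugate

theorem ELQ_fd {f g : ℂ → ℂ} {f' g' w : ℂ} (hf : HasDerivAt f f' w) (hg : HasDerivAt g g' w) :
    HasFDerivAt (𝕜 := ℝ) (fun v => f v * conj (g v))
      ((f w) • ((conjCLE : ℂ →L[ℝ] ℂ).comp
        (((ContinuousLinearMap.toSpanSingleton ℂ g').restrictScalars ℝ))) +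
        (conj (g w)) • ((ContinuousLinearMap.toSpanSingleton ℂ f').restrictScalars ℝ)) w := by
  have h1 : HasFDerivAt (𝕜 := ℝ) f ((ContinuousLinearMap.toSpanSingleton ℂ f').restrictScalars ℝ) w :=
    hf.hasFDerivAt.restrictScalars ℝ
  have h2 : HasFDerivAt (𝕜 := ℝ) g ((ContinuousLinearMap.toSpanSingleton ℂ g').restrictScalars ℝ) w :=
    hg.hasFDerivAt.restrictScalars ℝ
  have h3 : HasFDerivAt (𝕜 := ℝ) (fun v => conj (g v)) ((conjCLE : ℂ →L[ℝ] ℂ).comp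
        (((ContinuousLinearMap.toSpanSingleton ℂ g').restrictScalars ℝ))) w :=
    (conjCLE : ℂ →L[ℝ] ℂ).hasFDerivAt.comp w h2
  exact h1.mul h3

theorem ELQ (hLW : LW_stmt) (hLA : LA_stmt) : ELQ_stmt := by
  intro ψ ρ hρ hψ
  have hball : Metric.ball (0 : ℂ) ρ ∈ 𝓝 (0 : ℂ) := Metric.ball_mem_nhds 0 hρ
  have han : AnalyticOnNhd ℂ ψ (Metric.ball 0 ρ) := hψ.analyticOnNhd Metric.isOpen_ball
  have han0 : AnalyticAt ℂ ψ 0 := han 0 (Metric.mem_ball_self hρ)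
  have hcd : ContDiffAt ℝ 2 ψ 0 := han0.contDiffAt.restrict_scalars ℝ
  have hN : ContDiffAt ℝ 2 (fun y => 1 + ‖ψ y‖ ^ 2) 0 := contDiffAt_const.add (hcd.norm_sq ℝ)
  have hNpos : (0 : ℝ) < 1 + ‖ψ 0‖ ^ 2 := by positivity
  have hd : ∀ w ∈ Metric.ball (0 : ℂ) ρ, HasDerivAt ψ (deriv ψ w) w := fun w hw =>
    (hψ.differentiableAt (Metric.isOpen_ball.mem_nhds hw)).hasDerivAt
  have hd2 : HasDerivAt (deriv ψ) (deriv (deriv ψ) 0) 0 :=
    (han0.deriv.differentiableAt).hasDerivAt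
  have hfun : (fun v => (((1 + ‖ψ v‖ ^ 2 : ℝ)) : ℂ)) = fun v => 1 + ψ v * conj (ψ v) := by
    funext v
    rw [Complex.mul_conj, Complex.normSq_eq_norm_sq]
    push_cast
    ring
  have hdz : ∀ w ∈ Metric.ball (0 : ℂ) ρ,
      dz (fun v => (((1 + ‖ψ v‖ ^ 2 : ℝ)) : ℂ)) w = deriv ψ w * conj (ψ w) := by
    intro w hw
    rw [hfun]
    have h1 := (ELQ_fd (hd w hw) (hd w hw)).const_add (1 : ℂ)
    unfold dz
    rw [h1.fderiv]
    simp
    ring_nf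
    simp
    ring
  have hlap : lap (fun y => 1 + ‖ψ y‖ ^ 2) 0 = ‖deriv ψ 0‖ ^ 2 := by
    have h1 := hLW _ _ hN
    have h2 : dzb (fun w => dz (fun v => (((1 + ‖ψ v‖ ^ 2 : ℝ)) : ℂ)) w) 0 =
        dzb (fun w => deriv ψ w * conj (ψ w)) 0 := by
      have h3 : (fun w => dz (fun v => (((1 + ‖ψ v‖ ^ 2 : ℝ)) : ℂ)) w) =ᶠ[𝓝 0]
          fun w => deriv ψ w * conj (ψ w) := by
        filter_upwards [hball] with w hw
        exact hdz w hw
      unfold dzb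
      rw [h3.fderiv_eq]
    have h4 : dzb (fun w => deriv ψ w * conj (ψ w)) 0 = ((‖deriv ψ 0‖ ^ 2 : ℝ) : ℂ) := by
      have h5 := ELQ_fd hd2 (hd 0 (Metric.mem_ball_self hρ))
      have h6 : ((‖deriv ψ 0‖ ^ 2 : ℝ) : ℂ) = deriv ψ 0 * conj (deriv ψ 0) := by
        rw [Complex.mul_conj, Complex.normSq_eq_norm_sq]
      rw [h6]
      unfold dzb
      rw [h5.fderiv]
      simp
      ring_nf
      simp
      ring
    rw [h2, h4] at h1
    exact_mod_cast h1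
  refine ⟨hN.log hNpos.ne', ?_⟩
  rw [hLA.2 _ _ hN hNpos, hlap, hdz 0 (Metric.mem_ball_self hρ), norm_mul, RCLike.norm_conj]
  field_simp
  ring

end Pool.Agent.DL
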