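import Pool.Agent.helper22.DL.SpecE1

/-! # Project dl, module ERC: Hölder continuity of the Cauchy transform of a bounded density -/

namespace Pool.Agent.DL

open Matrix Complex MeasureTheory Set Filter Topology
open scoped ComplexOrder Manifold ContDiff ComplexConjugate

/-- translated version of EKA -/
theorem ERC_trans (hEKA : EKA_stmt) (s R : ℝ) (hs : 0 ≤ s) (hs2 : s < 2) (hR : 0 < R) :
    ∃ C : ℝ, 0 ≤ C ∧ ∀ a z₀ : ℂ, IntegrableOn (fun ξ : ℂ => ‖a - ξ‖ ^ (-s)) (Metric.ball z₀ R) ∧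
      ∫ ξ in Metric.ball z₀ R, ‖a - ξ‖ ^ (-s) ≤ C := by
  obtain ⟨C, hC⟩ := hEKA s R hs hs2 hR
  refine ⟨|C|, abs_nonneg _, fun a z₀ => ?_⟩
  obtain ⟨h1, h2⟩ := hC (a - z₀)
  have hmp : MeasurePreserving (fun ξ : ℂ => ξ - z₀) volume volume :=
    measurePreserving_sub_right volume z₀
  have hemb : MeasurableEmbedding (fun ξ : ℂ => ξ - z₀) :=
    (Homeomorph.subRight z₀).measurableEmbedding
  have hpre : (fun ξ : ℂ => ξ - z₀) ⁻¹' Metric.ball 0 R = Metric.ball z₀ R := by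
    ext ξ
    simp [Metric.mem_ball, dist_eq_norm]
  have hcomp : ((fun ξ : ℂ => ‖a - z₀ - ξ‖ ^ (-s)) ∘ fun ξ : ℂ => ξ - z₀) =
      fun ξ : ℂ => ‖a - ξ‖ ^ (-s) := by
    funext ξ
    simp only [Function.comp_apply]
    rw [sub_sub_sub_cancel_right]
  constructor
  · have h3 := (hmp.integrableOn_comp_preimage hemb (f := fun ξ : ℂ => ‖a - z₀ - ξ‖ ^ (-s))
      (s := Metric.ball 0 R)).2 h1
    rw [hpre, hcomp] at h3
    exact h3
  · have h3 := hmp.setIntegral_preimage_emb hemb (fun ξ : ℂ => ‖a - z₀ - ξ‖ ^ (-s))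
      (Metric.ball 0 R)
    rw [hpre] at h3
    have h4 : ∀ ξ : ℂ, ‖a - z₀ - (ξ - z₀)‖ = ‖a - ξ‖ := fun ξ => by
      rw [sub_sub_sub_cancel_right]
    simp only [h4] at h3
    rw [h3]
    exact h2.trans (le_abs_self C)

theorem ERC (hEKA : EKA_stmt) (hEKB : EKB_stmt) : ERC_stmt := by
  intro ρ M hρ
  obtain ⟨C1, hC1, h1⟩ := ERC_trans hEKA 1 ρ (by norm_num) (by norm_num) hρ
  obtain ⟨C2, hC2, h2⟩ := ERC_trans hEKA (3 / 2) ρ (by norm_num) (by norm_num) hρ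
  refine ⟨|M| * (C1 + 4 * C2), ?_⟩
  intro φ z₀ hφm hφ
  have hM : 0 ≤ M := (norm_nonneg _).trans (hφ z₀ (Metric.mem_ball_self hρ))
  rw [abs_of_nonneg hM]
  have hmeas : ∀ z : ℂ, AEStronglyMeasurable (fun ξ => φ ξ / (z - ξ))
      (volume.restrict (Metric.ball z₀ ρ)) := by
    intro z
    have h3 : Measurable fun ξ : ℂ => (z - ξ)⁻¹ := by fun_prop
    have h4 := hφm.mul h3.aestronglyMeasurable
    refine h4.congr (Eventually.of_forall fun ξ => ?_)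
    simp [div_eq_mul_inv]
  have hbd : ∀ z : ℂ, ∀ᵐ ξ ∂(volume.restrict (Metric.ball z₀ ρ)),
      ‖φ ξ / (z - ξ)‖ ≤ M * ‖z - ξ‖ ^ (-1 : ℝ) := by
    intro z
    filter_upwards [ae_restrict_mem Metric.isOpen_ball.measurableSet] with ξ hξ
    rw [norm_div, div_eq_mul_inv, Real.rpow_neg_one]
    exact mul_le_mul_of_nonneg_right (hφ ξ hξ) (by positivity)
  have hint : ∀ z : ℂ, IntegrableOn (fun ξ => φ ξ / (z - ξ)) (Metric.ball z₀ ρ) := by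
    intro z
    exact ((h1 z z₀).1.const_mul M).mono' (hmeas z) (hbd z)
  have hpi : (1 : ℝ) ≤ Real.pi := by linarith [Real.pi_gt_three]
  have hpi' : ‖(1 / (Real.pi : ℂ))‖ ≤ 1 := by
    rw [norm_div, norm_one, Complex.norm_real, Real.norm_of_nonneg Real.pi_pos.le,
      div_le_one Real.pi_pos]
    exact hpi
  refine ⟨hint, ?_, ?_⟩
  · intro z
    unfold TC
    rw [norm_mul]
    have h3 : ‖∫ ξ in Metric.ball z₀ ρ, φ ξ / (z - ξ)‖ ≤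
        ∫ ξ in Metric.ball z₀ ρ, M * ‖z - ξ‖ ^ (-1 : ℝ) :=
      norm_integral_le_of_norm_le ((h1 z z₀).1.const_mul M) (hbd z)
    rw [integral_const_mul] at h3
    have h4 : M * ∫ ξ in Metric.ball z₀ ρ, ‖z - ξ‖ ^ (-1 : ℝ) ≤ M * C1 :=
      mul_le_mul_of_nonneg_left (h1 z z₀).2 hM
    calc ‖(1 / (Real.pi : ℂ))‖ * ‖∫ ξ in Metric.ball z₀ ρ, φ ξ / (z - ξ)‖ ≤
        1 * (M * C1) := mul_le_mul hpi' (h3.trans h4) (norm_nonneg _) zero_le_one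
      _ ≤ M * (C1 + 4 * C2) := by
        rw [one_mul]
        exact mul_le_mul_of_nonneg_left (by linarith) hM
  · intro z z'
    set δ := ‖z - z'‖ with hδ
    have hδ0 : 0 ≤ δ := norm_nonneg _
    unfold TC
    rw [← mul_sub, ← integral_sub (hint z) (hint z'), norm_mul]
    have hae : ∀ᵐ ξ ∂(volume.restrict (Metric.ball z₀ ρ)), ξ ≠ z ∧ ξ ≠ z' := by
      apply ae_restrict_of_ae
      have e1 : ∀ᵐ ξ : ℂ, ξ ≠ z := by rw [ae_iff]; simp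
      have e2 : ∀ᵐ ξ : ℂ, ξ ≠ z' := by rw [ae_iff]; simp
      filter_upwards [e1, e2] with ξ a b
      exact ⟨a, b⟩
    have hb : ∀ᵐ ξ ∂(volume.restrict (Metric.ball z₀ ρ)), ‖φ ξ / (z - ξ) - φ ξ / (z' - ξ)‖ ≤
        M * (2 * δ ^ (1 / 2 : ℝ)) * (‖z - ξ‖ ^ (-(3 / 2) : ℝ) + ‖z' - ξ‖ ^ (-(3 / 2) : ℝ)) := by
      filter_upwards [hae, ae_restrict_mem Metric.isOpen_ball.measurableSet] with ξ hξ hξb
      have hx : 0 < ‖z - ξ‖ := norm_pos_iff.2 (sub_ne_zero.2 hξ.1.symm)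
      have hy : 0 < ‖z' - ξ‖ := norm_pos_iff.2 (sub_ne_zero.2 hξ.2.symm)
      have hz0 : z - ξ ≠ 0 := sub_ne_zero.2 hξ.1.symm
      have hz0' : z' - ξ ≠ 0 := sub_ne_zero.2 hξ.2.symm
      have h3 : φ ξ / (z - ξ) - φ ξ / (z' - ξ) = φ ξ * ((z' - z) / ((z - ξ) * (z' - ξ))) := by
        field_simp
        ring
      have hδ' : ‖z' - z‖ = δ := by rw [hδ, norm_sub_rev]
      rw [h3, norm_mul, norm_div, norm_mul, hδ']
      have h4 : δ ≤ ‖z - ξ‖ + ‖z' - ξ‖ := by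
        have h5 : z - z' = (z - ξ) - (z' - ξ) := by ring
        rw [hδ, h5]
        exact norm_sub_le _ _
      have h5 := hEKB.2.1 δ ‖z - ξ‖ ‖z' - ξ‖ hx hy hδ0 h4
      have h6 : 0 ≤ δ / (‖z - ξ‖ * ‖z' - ξ‖) := by positivity
      calc ‖φ ξ‖ * (δ / (‖z - ξ‖ * ‖z' - ξ‖)) ≤ M * (δ / (‖z - ξ‖ * ‖z' - ξ‖)) :=
            mul_le_mul_of_nonneg_right (hφ ξ hξb) h6
        _ ≤ M * (2 * δ ^ (1 / 2 : ℝ) *
            (‖z - ξ‖ ^ (-(3 / 2) : ℝ) + ‖z' - ξ‖ ^ (-(3 / 2) : ℝ))) :=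
            mul_le_mul_of_nonneg_left h5 hM
        _ = _ := by ring
    have hi : Integrable (fun ξ : ℂ => M * (2 * δ ^ (1 / 2 : ℝ)) *
        (‖z - ξ‖ ^ (-(3 / 2) : ℝ) + ‖z' - ξ‖ ^ (-(3 / 2) : ℝ)))
        (volume.restrict (Metric.ball z₀ ρ)) :=
      ((h2 z z₀).1.add (h2 z' z₀).1).const_mul _
    have h3 := norm_integral_le_of_norm_le hi hb
    rw [integral_const_mul, integral_add (h2 z z₀).1 (h2 z' z₀).1] at h3
    have hδs : 0 ≤ δ ^ (1 / 2 : ℝ) := Real.rpow_nonneg hδ0 _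
    have h4 : M * (2 * δ ^ (1 / 2 : ℝ)) * ((∫ ξ in Metric.ball z₀ ρ, ‖z - ξ‖ ^ (-(3 / 2) : ℝ)) +
        ∫ ξ in Metric.ball z₀ ρ, ‖z' - ξ‖ ^ (-(3 / 2) : ℝ)) ≤
        M * (2 * δ ^ (1 / 2 : ℝ)) * (C2 + C2) := by
      apply mul_le_mul_of_nonneg_left (add_le_add (h2 z z₀).2 (h2 z' z₀).2)
      positivity
    calc _ ≤ 1 * (M * (2 * δ ^ (1 / 2 : ℝ)) * (C2 + C2)) :=
          mul_le_mul hpi' (h3.trans h4) (norm_nonneg _) zero_le_one
      _ = M * (4 * C2) * δ ^ (1 / 2 : ℝ) := by ring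
      _ ≤ M * (C1 + 4 * C2) * δ ^ (1 / 2 : ℝ) := by
        apply mul_le_mul_of_nonneg_right _ hδs
        exact mul_le_mul_of_nonneg_left (by linarith) hM

end Pool.Agent.DL
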