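import Pool.Agent.helper22.DL.SpecE2

/-! # Project dl, module ESI: injectivity of the linearised scalar equation -/

namespace Pool.Agent.DL

open Matrix Complex MeasureTheory Set Filter Topology
open scoped ComplexOrder Manifold ContDiff ComplexConjugate

theorem ESI_QQ (p r : ℂ) (L : ℝ) (b : ℂ) : QQ' p r L b 0 0 = 0 := by
  simp [QQ']

theorem ESI_RR (p r : ℂ) (L : ℝ) (b : ℂ) : RR' p r L b 0 0 = 0 := by
  simp [RR']

theorem ESI_TG (φ : Bool → ℂ → ℂ) (h : ∀ j, ∀ z ∈ Dk, φ j z = 0) (j : Bool) (z : ℂ) :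
    TG φ j z = 0 := by
  unfold TG
  rw [setIntegral_eq_zero_of_forall_eq_zero (fun ξ hξ => by rw [h j ξ hξ, zero_div]),
    setIntegral_eq_zero_of_forall_eq_zero (fun ξ hξ => by rw [h (!j) ξ hξ, mul_zero, zero_div])]
  simp

theorem ESI_TB (β : Bool → ℂ → ℂ) (h : ∀ j, ∀ᵐ z : ℂ, z ∈ Dk → β j z = 0) (j : Bool) (z : ℂ) :
    TB β j z = 0 := by
  unfold TB
  rw [setIntegral_eq_zero_of_ae_eq_zero (by
      filter_upwards [h j] with ξ hξ h1
      rw [hξ h1, zero_div]),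
    setIntegral_eq_zero_of_ae_eq_zero (by
      filter_upwards [h (!j)] with ξ hξ h1
      rw [hξ h1, zero_div])]
  simp

theorem ESI_TU (F : Bool → ℂ → ℝ) (h : ∀ j, ∀ᵐ z : ℂ, z ∈ Dk → F j z = 0) (j : Bool) (z : ℂ) :
    TU F j z = 0 := by
  unfold TU
  rw [setIntegral_eq_zero_of_ae_eq_zero (by
      filter_upwards [h j] with ξ hξ h1
      rw [hξ h1, mul_zero]),
    setIntegral_eq_zero_of_ae_eq_zero (by
      filter_upwards [h (!j)] with ξ hξ h1
      rw [hξ h1, mul_zero])]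
  simp

/-- the conclusion from `u' = 0`, `b' = 0` on the disc -/
theorem ESI_end (hvol : volume {z : ℂ | z ^ 8 = 1} = 0) (D : Dat) (u : Bool → ℂ → ℝ)
    (b g : Bool → ℂ → ℂ) (u' : Bool → ℂ → ℝ) (b' g' : Bool → ℂ → ℂ) (c' : ℝ) (P' : Fin 3 → ℂ)
    (hlin : Lin3 D u b g u' b' g' c' P') (h0 : ∀ j, ∀ z ∈ Dk, u' j z = 0 ∧ b' j z = 0) :
    c' = 0 ∧ ∀ k, P' k = 0 := by
  have hae : ∀ᵐ z : ℂ, z ^ 8 ≠ 1 := by
    rw [ae_iff]
    simpa using hvol
  have hphi : ∀ j, ∀ z ∈ Dk, phi' D u b u' b' j z = 0 := by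
    intro j z hz
    unfold phi'
    rw [(h0 j z hz).1, (h0 j z hz).2, ESI_QQ, map_zero, mul_zero]
  have hg' : ∀ j, ∀ z ∈ Dk, z ^ 8 ≠ 1 → g' j z = 0 := by
    intro j z hz hz8
    rw [hlin.eg j z hz hz8]
    exact ESI_TG _ hphi j z
  have hbet : ∀ j, ∀ᵐ z : ℂ, z ∈ Dk → bet' u g u' g' j z = 0 := by
    intro j
    filter_upwards [hae] with z hz8 hz
    unfold bet'
    rw [hg' j z hz hz8, (h0 j z hz).1]
    simp
  have hFd : ∀ j, ∀ᵐ z : ℂ, z ∈ Dk → Fd' D u b g u' b' g' j z = 0 := by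
    intro j
    filter_upwards [hae] with z hz8 hz
    unfold Fd'
    rw [hg' j z hz hz8, (h0 j z hz).1, (h0 j z hz).2, ESI_RR]
    simp
  have hz0 : (0 : ℂ) ∈ Dk := by simp
  have hz1 : (1 : ℂ) ∈ Dk := by simp
  have hz2 : (-1 : ℂ) ∈ Dk := by simp
  constructor
  · have h1 := hlin.eu false 0 hz0
    rw [ESI_TU _ hFd, (h0 false 0 hz0).1, zero_add] at h1
    exact h1.symm
  · have hP : ∀ z ∈ Dk, Pq P' false z = 0 := by
      intro z hz
      have h1 := hlin.eb false z hz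
      rw [ESI_TB _ hbet, (h0 false z hz).2, zero_add] at h1
      exact h1.symm
    have e0 := hP 0 hz0
    have e1 := hP 1 hz1
    have e2 := hP (-1) hz2
    simp only [Pq, cond_false] at e0 e1 e2
    have p0 : P' 0 = 0 := by simpa using e0
    have p2 : P' 2 = 0 := by linear_combination (e1 + e2) / 2 - p0
    have p1 : P' 1 = 0 := by linear_combination (e1 - e2) / 2
    intro k
    fin_cases k
    · exact p0
    · exact p1
    · exact p2

theorem ESI_RRs (p : ℂ) (L L' : ℝ) :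
    RR' p 0 L 0 L' 0 = L' * (Real.exp L * ‖p‖ ^ 2 + Real.exp (-L)) := by
  simp [RR', xx, yy]
  ring

theorem ESI_dzb (z : ℂ) : dzb (fun _ : ℂ => (0 : ℂ)) z = 0 := by
  simp [dzb]

theorem ESI (hEIS : EIS_stmt) (hEIL : EIL_stmt) (hEPD : EPD_stmt) (hEMX : EMX_stmt)
    (hEPT : EPT_stmt) (hMX : MX_stmt) (hLA : LA_stmt) (hEKC : EKC_stmt) : ESI_stmt := by
  intro D u c u' c' hD hr hsol hlin
  have hGS := hEIS D u zf zf c 0 hD hsol
  have hGSL := hEIL D u zf zf c 0 u' zf zf c' 0 hD hsol hlin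
  obtain ⟨hPS, hLPS⟩ := hEPD D _ _ _ _ _ _ hD hGS hGSL
  have hB : (fun j z => TB (bet u zf) j z + Pq 0 j z) = fun _ _ => (0 : ℂ) := by
    funext j z
    have h1 : TB (bet u zf) j z = 0 := by
      apply ESI_TB
      intro i
      refine Eventually.of_forall fun w _ => ?_
      simp [bet]
    rw [h1]
    cases j <;> simp [Pq]
  have hB' : (fun j z => TB (bet' u zf u' zf) j z + Pq 0 j z) = fun _ _ => (0 : ℂ) := by
    funext j z
    have h1 : TB (bet' u zf u' zf) j z = 0 := by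
      apply ESI_TB
      intro i
      refine Eventually.of_forall fun w _ => ?_
      simp [bet']
    rw [h1]
    cases j <;> simp [Pq]
  rw [hB] at hPS
  rw [hB, hB'] at hLPS
  set U : Bool → ℂ → ℝ := fun j z => TU (Fd D u zf zf) j z + c with hU
  set U' : Bool → ℂ → ℝ := fun j z => TU (Fd' D u zf zf u' zf zf) j z + c' with hU'
  obtain ⟨j, z₀, hz₀, hmax, hmax'⟩ := hEMX (fun j z => |U' j z|)
    (fun j => (hLPS.cL j).abs) (fun j z hz => by rw [hLPS.gL j z hz])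
  obtain ⟨cc, hcc, hcoord⟩ := hEPT D.κ hD.hκ
  obtain ⟨ψ, om, ρ, hρ, hψ0, hψ, hom, -, -, -, hSY, hLSY⟩ := hcoord z₀ hz₀
  have h0ball : (0 : ℂ) ∈ Metric.ball (0 : ℂ) ρ := Metric.mem_ball_self hρ
  have hLSY' := hLSY D (fun j => Ls (U j)) (fun _ _ => 0) U' (fun _ _ => 0) rfl hPS hLPS j
  set v : ℂ → ℝ := fun y => U' j (ψ y) with hv
  have hvc : ContDiffAt ℝ 2 v 0 :=
    hLSY'.sL.contDiffAt (Metric.isOpen_ball.mem_nhds h0ball)
  have hlap : lap v 0 = om 0 * (v 0 * (Real.exp (Ls (U j) (ψ 0)) * ‖D.p j (ψ 0)‖ ^ 2 +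
      Real.exp (-Ls (U j) (ψ 0)))) := by
    have h1 := hLSY'.e1 0 h0ball
    beta_reduce at h1
    rw [hr j (ψ 0), ESI_RRs, ESI_dzb 0] at h1
    simpa using h1
  have hom0 := hom 0 h0ball
  have hpos : 0 < Real.exp (Ls (U j) (ψ 0)) * ‖D.p j (ψ 0)‖ ^ 2 +
      Real.exp (-Ls (U j) (ψ 0)) := by
    have h1 := Real.exp_pos (Ls (U j) (ψ 0))
    have h2 := Real.exp_pos (-Ls (U j) (ψ 0))
    positivity
  have hmaxv : ∀ y, |v y| ≤ |v 0| := by
    intro y
    have h1 := hmax (ψ y)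
    have h2 : |v 0| = |U' j z₀| := by rw [hv, ← hψ0]
    rw [h2]
    exact h1
  have hv0 : v 0 = 0 := by
    rcases lt_trichotomy (v 0) 0 with h | h | h
    · exfalso
      have h1 := hLA.1 v v 0 (-1) 0 hvc hvc
      have h2 : ContDiffAt ℝ 2 (fun w => (-1) * v w + 0 * v w) 0 :=
        (contDiffAt_const.mul hvc).add (contDiffAt_const.mul hvc)
      have h3 : IsLocalMax (fun w => (-1) * v w + 0 * v w) 0 := by
        refine Eventually.of_forall fun w => ?_
        have h4 := hmaxv w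
        rw [abs_of_neg h] at h4
        have h5 := neg_abs_le (v w)
        show (-1) * v w + 0 * v w ≤ (-1) * v 0 + 0 * v 0
        linarith
      have h4 := hMX _ 0 h2 h3
      rw [h1, hlap] at h4
      have h5 : 0 < om 0 * ((-v 0) * (Real.exp (Ls (U j) (ψ 0)) * ‖D.p j (ψ 0)‖ ^ 2 +
          Real.exp (-Ls (U j) (ψ 0)))) := mul_pos hom0 (mul_pos (by linarith) hpos)
      linarith
    · exact h
    · exfalso
      have h3 : IsLocalMax v 0 := by
        refine Eventually.of_forall fun w => ?_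
        have h4 := hmaxv w
        rw [abs_of_pos h] at h4
        exact (le_abs_self _).trans h4
      have h4 := hMX _ 0 hvc h3
      rw [hlap] at h4
      have h5 : 0 < om 0 * (v 0 * (Real.exp (Ls (U j) (ψ 0)) * ‖D.p j (ψ 0)‖ ^ 2 +
          Real.exp (-Ls (U j) (ψ 0)))) := mul_pos hom0 (mul_pos h hpos)
      linarith
  have hF0 : |U' j z₀| = 0 := by
    rw [← hψ0]
    show |v 0| = 0
    rw [hv0, abs_zero]
  have hzero : ∀ i z, U' i z = 0 := by
    intro i z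
    rw [← abs_eq_zero]
    apply le_antisymm _ (abs_nonneg _)
    rw [← hF0]
    rcases Bool.eq_or_eq_not i j with h | h
    · rw [h]
      exact hmax z
    · rw [h]
      exact hmax' z
  have hfinal : ∀ i, ∀ z ∈ Dk, u' i z = 0 := by
    intro i z hz
    rw [hlin.eu i z hz]
    exact hzero i z
  exact ⟨hfinal, (ESI_end hEKC.2.2.1 D u zf zf u' zf zf c' 0 hlin
    (fun i z hz => ⟨hfinal i z hz, rfl⟩)).1⟩

end Pool.Agent.DL
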