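import Pool.Agent.helper67.DL.SpecL

/-! Module AH of part L (MP_4caea3_gt): the comparison lemma of Ahlfors on the unit disc. -/

namespace Pool.Agent.DL

open Matrix Complex
open scoped ComplexOrder

noncomputable section

/-- The function `1 - |w - z₁|²`. -/
def AH_N (c w : ℂ) : ℝ := 1 - ((w.re - c.re) ^ 2 + (w.im - c.im) ^ 2)

theorem AH_N_eq (c w : ℂ) : AH_N c w = 1 - ‖w - c‖ ^ 2 := by
  unfold AH_N
  rw [← Complex.normSq_eq_norm_sq, Complex.normSq_apply]
  simp only [Complex.sub_re, Complex.sub_im]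
  ring

theorem AH_N_contDiff (c : ℂ) : ContDiff ℝ 2 (AH_N c) := by
  unfold AH_N
  have h1 : ContDiff ℝ 2 (fun w : ℂ => w.re) := Complex.reCLM.contDiff
  have h2 : ContDiff ℝ 2 (fun w : ℂ => w.im) := Complex.imCLM.contDiff
  exact contDiff_const.sub (((h1.sub contDiff_const).pow 2).add ((h2.sub contDiff_const).pow 2))

theorem AH_id2 (a b : ℝ) : iteratedDeriv 2 (fun t : ℝ => 1 - ((a + t) ^ 2 + b ^ 2)) 0 = -2 := by
  rw [iteratedDeriv_succ, iteratedDeriv_one]
  have h1 : deriv (fun t : ℝ => 1 - ((a + t) ^ 2 + b ^ 2)) = fun t => -(2 * (a + t)) := by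
    funext t
    have h : HasDerivAt (fun t : ℝ => 1 - ((a + t) ^ 2 + b ^ 2)) (-(2 * (a + t))) t := by
      have h0 : HasDerivAt (fun t : ℝ => a + t) 1 t := (hasDerivAt_id t).const_add a
      have h2 := ((h0.pow 2).add_const (b ^ 2)).const_sub 1
      refine h2.congr_deriv ?_
      norm_num
    exact h.deriv
  rw [h1]
  have h : HasDerivAt (fun t : ℝ => -(2 * (a + t))) (-2) 0 := by
    have h0 : HasDerivAt (fun t : ℝ => a + t) 1 0 := (hasDerivAt_id (0:ℝ)).const_add a
    refine (h0.const_mul 2).neg.congr_deriv ?_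
    norm_num
  exact h.deriv

theorem AH_lapN (c z : ℂ) : lap (AH_N c) z = -1 := by
  unfold lap
  have e1 : (fun t : ℝ => AH_N c (z + t)) = fun t : ℝ => 1 - (((z.re - c.re) + t) ^ 2 + (z.im - c.im) ^ 2) := by
    funext t
    simp only [AH_N, Complex.add_re, Complex.add_im, Complex.ofReal_re, Complex.ofReal_im]
    ring
  have e2 : (fun t : ℝ => AH_N c (z + t * I)) =
      fun t : ℝ => 1 - (((z.im - c.im) + t) ^ 2 + (z.re - c.re) ^ 2) := by
    funext t
    simp only [AH_N, Complex.add_re, Complex.add_im, Complex.mul_re, Complex.mul_im, Complex.ofReal_re,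
      Complex.ofReal_im, Complex.I_re, Complex.I_im]
    ring
  rw [e1, e2, AH_id2, AH_id2]
  norm_num

theorem AH_hasFDeriv (c z : ℂ) : HasFDerivAt (fun w => ((AH_N c w : ℝ) : ℂ))
    (Complex.ofRealCLM.comp (-((2 * (z.re - c.re)) • Complex.reCLM + (2 * (z.im - c.im)) • Complex.imCLM))) z := by
  have h1 : HasFDerivAt (fun w : ℂ => w.re - c.re) Complex.reCLM z := Complex.reCLM.hasFDerivAt.sub_const _
  have h2 : HasFDerivAt (fun w : ℂ => w.im - c.im) Complex.imCLM z := Complex.imCLM.hasFDerivAt.sub_const _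
  have h3 := ((h1.pow 2).add (h2.pow 2)).const_sub 1
  have h4 : HasFDerivAt (AH_N c) (-((2 * (z.re - c.re)) • Complex.reCLM + (2 * (z.im - c.im)) • Complex.imCLM)) z := by
    refine h3.congr_fderiv ?_
    ext <;> simp
  exact Complex.ofRealCLM.hasFDerivAt.comp z h4

theorem AH_dzN (c z : ℂ) : ‖dz (fun w => ((AH_N c w : ℝ) : ℂ)) z‖ ^ 2 = ‖z - c‖ ^ 2 := by
  unfold dz
  rw [(AH_hasFDeriv c z).fderiv]
  have : ((Complex.ofRealCLM.comp (-((2 * (z.re - c.re)) • Complex.reCLM + (2 * (z.im - c.im)) • Complex.imCLM))) 1 -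
      I * (Complex.ofRealCLM.comp (-((2 * (z.re - c.re)) • Complex.reCLM + (2 * (z.im - c.im)) • Complex.imCLM))) I) / 2
      = -(⟨z.re - c.re, -(z.im - c.im)⟩ : ℂ) := by
    apply Complex.ext <;> simp <;> ring
  rw [this, norm_neg, ← Complex.normSq_eq_norm_sq, ← Complex.normSq_eq_norm_sq, Complex.normSq_apply,
    Complex.normSq_apply]
  simp only [Complex.sub_re, Complex.sub_im]
  ring

theorem AH (hMX : MX_stmt) (hLA : LA_stmt) : AH_stmt := by
  intro f c Λ hΛ hf hlap
  have hcont : ContinuousOn (fun w => f w * AH_N c w ^ 2) (Metric.closedBall c 1) := by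
    intro w hw
    have h1 : ContinuousAt f w := (hf w hw).1.continuousAt
    have h2 : ContinuousAt (AH_N c) w := (AH_N_contDiff c).continuous.continuousAt
    exact (h1.mul (h2.pow 2)).continuousWithinAt
  have hne : (Metric.closedBall c 1).Nonempty := ⟨c, Metric.mem_closedBall_self zero_le_one⟩
  obtain ⟨p, hp, hmax⟩ := (isCompact_closedBall c 1).exists_isMaxOn hne hcont
  have hmax' : ∀ w ∈ Metric.closedBall c 1, f w * AH_N c w ^ 2 ≤ f p * AH_N c p ^ 2 := fun w hw => hmax hw
  have hNc : AH_N c c = 1 := by simp [AH_N]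
  have hfc : f c ≤ f p * AH_N c p ^ 2 := by
    have := hmax' c (Metric.mem_closedBall_self zero_le_one)
    rw [hNc] at this
    simpa using this
  have hfc0 : 0 < f c := (hf c (Metric.mem_closedBall_self zero_le_one)).2
  have hfp0 : 0 < f p := (hf p hp).2
  have hdp : ‖p - c‖ ≤ 1 := by simpa [Metric.mem_closedBall, dist_eq_norm] using hp
  have hNp0 : 0 ≤ AH_N c p := by
    rw [AH_N_eq]
    nlinarith [norm_nonneg (p - c)]
  have hNp1 : AH_N c p ≤ 1 := by
    rw [AH_N_eq]
    nlinarith [norm_nonneg (p - c)]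
  have hNp : 0 < AH_N c p := by
    rcases hNp0.lt_or_eq with h | h
    · exact h
    · rw [← h] at hfc
      simp at hfc
      linarith
  have hpb : p ∈ Metric.ball c 1 := by
    rw [Metric.mem_ball, dist_eq_norm]
    rw [AH_N_eq] at hNp
    nlinarith [norm_nonneg (p - c)]
  by_cases hcase : 2 * Λ ≤ f p
  · have h1 := hlap p hpb hcase
    -- the maximum of `log f + 2 log N`
    have hlf : ContDiffAt ℝ 2 (fun w => Real.log (f w)) p := (hf p hp).1.log hfp0.ne'
    have hlN : ContDiffAt ℝ 2 (fun w => Real.log (AH_N c w)) p := (AH_N_contDiff c).contDiffAt.log hNp.ne'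
    have hlin := hLA.1 (fun w => Real.log (f w)) (fun w => Real.log (AH_N c w)) p 1 2 hlf hlN
    have hlog := hLA.2 (AH_N c) p (AH_N_contDiff c).contDiffAt hNp
    have hloc : IsLocalMax (fun w => 1 * Real.log (f w) + 2 * Real.log (AH_N c w)) p := by
      have hopen : ∀ᶠ w in nhds p, w ∈ Metric.ball c 1 := Metric.isOpen_ball.mem_nhds hpb
      filter_upwards [hopen] with w hw
      have hwc : w ∈ Metric.closedBall c 1 := Metric.ball_subset_closedBall hw
      have hfw : 0 < f w := (hf w hwc).2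
      have hNw : 0 < AH_N c w := by
        rw [AH_N_eq]
        have : ‖w - c‖ < 1 := by simpa [Metric.mem_ball, dist_eq_norm] using hw
        nlinarith [norm_nonneg (w - c)]
      have e1 : 1 * Real.log (f w) + 2 * Real.log (AH_N c w) = Real.log (f w * AH_N c w ^ 2) := by
        rw [Real.log_mul hfw.ne' (pow_pos hNw 2).ne', Real.log_pow]
        push_cast
        ring
      have e2 : 1 * Real.log (f p) + 2 * Real.log (AH_N c p) = Real.log (f p * AH_N c p ^ 2) := by
        rw [Real.log_mul hfp0.ne' (pow_pos hNp 2).ne', Real.log_pow]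
        push_cast
        ring
      rw [e1, e2]
      exact Real.log_le_log (mul_pos hfw (pow_pos hNw 2)) (hmax' w hwc)
    have hcd : ContDiffAt ℝ 2 (fun w => 1 * Real.log (f w) + 2 * Real.log (AH_N c w)) p :=
      (contDiffAt_const.mul hlf).add (contDiffAt_const.mul hlN)
    have hle := hMX _ p hcd hloc
    rw [hlin, hlog, AH_lapN, AH_dzN] at hle
    have hN2 : ‖p - c‖ ^ 2 = 1 - AH_N c p := by rw [AH_N_eq]; ring
    rw [hN2] at hle
    have e3 : (-1 : ℝ) / AH_N c p - (1 - AH_N c p) / AH_N c p ^ 2 = -(1 / AH_N c p ^ 2) := by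
      field_simp
      ring
    rw [e3] at hle
    have h2 : f p / 16 ≤ 2 * (1 / AH_N c p ^ 2) := by linarith
    have h3 : f p * AH_N c p ^ 2 ≤ 32 := by
      have hpos : 0 < AH_N c p ^ 2 := pow_pos hNp 2
      have h4 := mul_le_mul_of_nonneg_right h2 hpos.le
      have h5 : 2 * (1 / AH_N c p ^ 2) * AH_N c p ^ 2 = 2 := by field_simp
      rw [h5] at h4
      linarith
    exact le_max_of_le_left (hfc.trans h3)
  · push Not at hcase
    refine le_max_of_le_right (hfc.trans ?_)
    have : AH_N c p ^ 2 ≤ 1 := by nlinarith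
    nlinarith

end

end Pool.Agent.DL
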