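import Pool.Agent.helper67.DL.SpecL

/-! Module WL of part L (MP_4caea3_gt): the inequality for `log |P|²`. -/

namespace Pool.Agent.DL

open Matrix Complex
open scoped ComplexOrder

noncomputable section

theorem WL_neg {n : ℕ} (H Q : Matrix (Fin n) (Fin n) ℂ) : nn H (-Q) = nn H Q := by
  unfold nn nn2
  simp only [Matrix.conjTranspose_neg, Matrix.mul_neg, Matrix.neg_mul, neg_neg]

theorem WL (hMN : MN_stmt) (hWI : WI_stmt) (hLA : LA_stmt) : WL_stmt := by
  intro n Ω W A H P hΩ hA hP hH hcomm hP0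
  obtain ⟨hcd, hid⟩ := hWI n n Ω W A H A H P hΩ hA hA hP hH hH hcomm
  have hpos : ∀ z ∈ Ω, 0 < nn (H z) (P z) := by
    intro z hz
    obtain ⟨h0, h1, -⟩ := hMN n (H z) (hH.pos z hz)
    rcases (h0 (P z)).lt_or_eq with h | h
    · exact h
    · exact absurd (h1 (P z) h.symm) (hP0 z hz)
  refine ⟨hpos, hcd, ?_⟩
  intro z hz
  obtain ⟨hX, hY, hlap, hdz⟩ := hid z hz
  have hN := hpos z hz
  have hcdz : ContDiffAt ℝ 2 (fun w => nn (H w) (P w)) z := hcd.contDiffAt (hΩ.mem_nhds hz)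
  have hlog := hLA.2 (fun w => nn (H w) (P w)) z hcdz hN
  rw [hlog]
  have hneg : adj (H z) (A z) * P z - P z * adj (H z) (A z) = -(P z * adj (H z) (A z) - adj (H z) (A z) * P z) := by
    rw [neg_sub]
  rw [hneg, WL_neg]
  have hlap' : lap (fun w => nn (H w) (P w)) z =
      nn2 (H z) (H z) (mdz P z + (H z)⁻¹ * mdz H z * P z - P z * ((H z)⁻¹ * mdz H z)) +
      W z * nn (H z) (P z * adj (H z) (A z) - adj (H z) (A z) * P z) := hlap
  have hdz' : ‖dz (fun w => ((nn (H w) (P w) : ℝ) : ℂ)) z‖ ^ 2 ≤ nn (H z) (P z) *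
      nn2 (H z) (H z) (mdz P z + (H z)⁻¹ * mdz H z * P z - P z * ((H z)⁻¹ * mdz H z)) := hdz
  rw [hlap']
  generalize nn2 (H z) (H z) (mdz P z + (H z)⁻¹ * mdz H z * P z - P z * ((H z)⁻¹ * mdz H z)) = X at *
  generalize W z * nn (H z) (P z * adj (H z) (A z) - adj (H z) (A z) * P z) = Y at *
  generalize ‖dz (fun w => ((nn (H w) (P w) : ℝ) : ℂ)) z‖ ^ 2 = D at *
  generalize nn (H z) (P z) = N at *
  have h1 : D / N ^ 2 ≤ X / N := by
    rw [div_le_div_iff₀ (pow_pos hN 2) hN]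
    nlinarith [mul_le_mul_of_nonneg_right hdz' hN.le]
  rw [add_div]
  linarith

end

end Pool.Agent.DL
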